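import Pool.Agent.Q62.JL.Main

/-!
# Jellium with an additional short-range pair potential: continuity in the density

For every admissible short-range potential `v` and every `β > 0` the thermodynamic limit
`g(β, ρ)` of `|Λ|⁻¹ ln Z(β, ρ; Λ)` along balls is a locally Lipschitz function of the density
`ρ ∈ (0, ∞)`; in particular it is continuous.

Proof.  At fixed volume `V` one adds a particle at a uniformly distributed point (Jensen's
inequality) and one removes a particle chosen uniformly among the `N + 1` (an exact identity for
the average energy, stability, Jensen): `|ln Z_{N+1} - ln Z_N| ≤ K` for all densities in a compact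
interval.  The change of the container from volume `j / ρ` to `k / ρ'` costs `o(V)`.
-/

set_option autoImplicit false

namespace Pool.Agent.Results.MP_6fcc74_mp.LipschitzInDensity

open Filter Topology Q62.JL

/-- For every admissible `v` and every `β > 0`, the function `ρ ↦ g(β, ρ)` is locally Lipschitz,
hence continuous, on `(0, ∞)`. -/
theorem result (v : E → ℝ) (hv : Admissible v) (β : ℝ) (hβ : 0 < β) (g : ℝ → ℝ)
    (hg : ∀ ρ : ℝ, 0 < ρ → Tendsto (gfin v β ρ) atTop (𝓝 (g ρ))) :
    LocallyLipschitzOn (Set.Ioi 0) g ∧ ContinuousOn g (Set.Ioi 0) :=
  ⟨main hv hβ hg, (main hv hβ hg).continuousOn⟩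

end Pool.Agent.Results.MP_6fcc74_mp.LipschitzInDensity
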